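import Mathlib
import Pool.Agent.Q35.Lam4

namespace Pool.Agent.Results.MP_53b42b_nt.Full

open PowerSeries Pool.Agent.Q35 Pool.Agent.Q35.Lam Pool.Agent.Q35.Auto

/-- `S k m n`, the coefficient of `x^n` in
`(1-x)^(-m) ∏_{i ≥ 0} (1 - x^(k^i))^(-m(k-1))`; the factors with `i > n` do not influence this
coefficient, and `1/(1-x^d)` is written as the series with coefficient `1` at the multiples of `d`
and `0` elsewhere. -/
noncomputable def S (k m n : ℕ) : ℕ :=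
  coeff n ((mk fun _ => (1 : ℕ)) ^ m *
    (∏ i ∈ Finset.range (n + 1), mk fun j => if k ^ i ∣ j then (1 : ℕ) else 0) ^ (m * (k - 1)))

/-! ### data for the powers of two matrices -/

/-- data -/
def W1 : (List ℕ × List ℕ) × (List ℕ × List ℕ) :=
  (([1], [2]), ([0, 1], [1, 2]))

/-- data -/
def W2 : (List ℕ × List ℕ) × (List ℕ × List ℕ) :=
  (([1, 2], [4, 4]), ([0, 2, 2], [1, 6, 4]))

/-- data -/
def W4 : (List ℕ × List ℕ) × (List ℕ × List ℕ) :=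
  (([1, 12, 20, 8], [8, 40, 48, 16]), ([0, 4, 20, 24, 8], [1, 20, 60, 56, 16]))

/-- data -/
def W8 : (List ℕ × List ℕ) × (List ℕ × List ℕ) :=
  (([1, 56, 56, 16, 16], [16, 16, 32, 32]), ([0, 8, 40, 48, 16], [1, 8, 8, 48, 48]))

/-- data -/
def W16 : (List ℕ × List ℕ) × (List ℕ × List ℕ) :=
  (([1, 48, 48, 32, 32], [32, 32]), ([0, 16, 16, 32, 32], [1, 16, 16, 32, 32]))

/-- data -/
def W32 : (List ℕ × List ℕ) × (List ℕ × List ℕ) :=
  (([1, 32, 32], []), ([0, 32, 32], [1, 32, 32]))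

/-- data -/
def W0 : (List ℕ × List ℕ) × (List ℕ × List ℕ) :=
  (([1], []), ([], [1]))

/-- data -/
def W6 : (List ℕ × List ℕ) × (List ℕ × List ℕ) :=
  (([1, 30, 12, 32, 16, 32], [12, 12]), ([0, 6, 6, 32, 32, 32, 32], [1, 42, 24, 32, 16, 32]))

/-- data -/
def W14 : (List ℕ × List ℕ) × (List ℕ × List ℕ) :=
  (([1, 54, 20, 0, 32], [28, 28]), ([0, 14, 14], [1, 18, 48, 0, 32]))

/-- data -/
def W22 : (List ℕ × List ℕ) × (List ℕ × List ℕ) :=
  (([1, 14, 28, 32, 48, 32], [44, 44]), ([0, 22, 22, 32, 32, 32, 32], [1, 58, 8, 32, 48, 32]))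

/-- data -/
def W30 : (List ℕ × List ℕ) × (List ℕ × List ℕ) :=
  (([1, 38, 36], [60, 60]), ([0, 30, 30], [1, 34, 32]))

/-- data -/
def W38 : (List ℕ × List ℕ) × (List ℕ × List ℕ) :=
  (([1, 62, 44, 32, 16, 32], [12, 12]), ([0, 38, 38, 32, 32, 32, 32], [1, 10, 56, 32, 16, 32]))

/-- data -/
def W46 : (List ℕ × List ℕ) × (List ℕ × List ℕ) :=
  (([1, 22, 52, 0, 32], [28, 28]), ([0, 46, 46], [1, 50, 16, 0, 32]))

/-- data -/
def W54 : (List ℕ × List ℕ) × (List ℕ × List ℕ) :=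
  (([1, 46, 60, 32, 48, 32], [44, 44]), ([0, 54, 54, 32, 32, 32, 32], [1, 26, 40, 32, 48, 32]))

/-- data -/
def W62 : (List ℕ × List ℕ) × (List ℕ × List ℕ) :=
  (([1, 6, 4], [60, 60]), ([0, 62, 62], [1, 2]))

/-- data -/
def W12 : (List ℕ × List ℕ) × (List ℕ × List ℕ) :=
  (([1, 4, 44, 24, 48], [24, 56, 16, 48]), ([0, 12, 60, 8, 24], [1, 28, 36, 40, 32]))

/-- data -/
def W28 : (List ℕ × List ℕ) × (List ℕ × List ℕ) :=
  (([1, 52, 28, 56, 16], [56, 24, 16, 48]), ([0, 28, 12, 40, 56], [1, 44, 52, 8]))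

/-- data -/
def W44 : (List ℕ × List ℕ) × (List ℕ × List ℕ) :=
  (([1, 36, 12, 24, 48], [24, 56, 16, 48]), ([0, 44, 28, 8, 24], [1, 60, 4, 40, 32]))

/-- data -/
def W60 : (List ℕ × List ℕ) × (List ℕ × List ℕ) :=
  (([1, 20, 60, 56, 16], [56, 24, 16, 48]), ([0, 60, 44, 40, 56], [1, 12, 20, 8]))

/-- data -/
def V1 : (List ℕ × List ℕ) × (List ℕ × List ℕ) :=
  (([1], [1]), ([0, 2], [1, 2]))

/-- data -/
def V2 : (List ℕ × List ℕ) × (List ℕ × List ℕ) :=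
  (([1, 2], [2, 2]), ([0, 4, 4], [1, 6, 4]))

/-- data -/
def V4 : (List ℕ × List ℕ) × (List ℕ × List ℕ) :=
  (([1, 4, 4], [4, 4]), ([], [1, 4, 4]))

/-- data -/
def V8 : (List ℕ × List ℕ) × (List ℕ × List ℕ) :=
  (([1], []), ([], [1]))

theorem tW1 : toM 64 W1 = Nw (ZMod 64) ^ 1 := by
  have hC2 : (Polynomial.C 2 : Polynomial (ZMod 64)) = 2 := rfl
  rw [pow_one]
  ext1 i j
  fin_cases i <;> fin_cases j <;> simp [toM, Nw, W1, ofL, hC2]
  ring

theorem tV1 : toM 8 V1 = (1 + My (ZMod 8)) ^ 1 := by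
  have hC2 : (Polynomial.C 2 : Polynomial (ZMod 8)) = 2 := rfl
  rw [pow_one]
  ext1 i j
  fin_cases i <;> fin_cases j <;> simp [toM, My, V1, ofL, hC2] <;> ring

theorem cW2 : (app 64 W1 W1.1, app 64 W1 W1.2) = W2 := by decide +kernel
theorem tW2 : toM 64 W2 = Nw (ZMod 64) ^ 2 := by
  rw [← comp_spec _ _ _ cW2, tW1, ← pow_add]
theorem cW4 : (app 64 W2 W2.1, app 64 W2 W2.2) = W4 := by decide +kernel
theorem tW4 : toM 64 W4 = Nw (ZMod 64) ^ 4 := by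
  rw [← comp_spec _ _ _ cW4, tW2, ← pow_add]
theorem cW8 : (app 64 W4 W4.1, app 64 W4 W4.2) = W8 := by decide +kernel
theorem tW8 : toM 64 W8 = Nw (ZMod 64) ^ 8 := by
  rw [← comp_spec _ _ _ cW8, tW4, ← pow_add]
theorem cW16 : (app 64 W8 W8.1, app 64 W8 W8.2) = W16 := by decide +kernel
theorem tW16 : toM 64 W16 = Nw (ZMod 64) ^ 16 := by
  rw [← comp_spec _ _ _ cW16, tW8, ← pow_add]
theorem cW32 : (app 64 W16 W16.1, app 64 W16 W16.2) = W32 := by decide +kernel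
theorem tW32 : toM 64 W32 = Nw (ZMod 64) ^ 32 := by
  rw [← comp_spec _ _ _ cW32, tW16, ← pow_add]
theorem cW0 : (app 64 W32 W32.1, app 64 W32 W32.2) = W0 := by decide +kernel
theorem tW0 : toM 64 W0 = Nw (ZMod 64) ^ 64 := by
  rw [← comp_spec _ _ _ cW0, tW32, ← pow_add]
theorem cW6 : (app 64 W2 W4.1, app 64 W2 W4.2) = W6 := by decide +kernel
theorem tW6 : toM 64 W6 = Nw (ZMod 64) ^ 6 := by
  rw [← comp_spec _ _ _ cW6, tW2, tW4, ← pow_add]
theorem cW14 : (app 64 W6 W8.1, app 64 W6 W8.2) = W14 := by decide +kernel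
theorem tW14 : toM 64 W14 = Nw (ZMod 64) ^ 14 := by
  rw [← comp_spec _ _ _ cW14, tW6, tW8, ← pow_add]
theorem cW22 : (app 64 W6 W16.1, app 64 W6 W16.2) = W22 := by decide +kernel
theorem tW22 : toM 64 W22 = Nw (ZMod 64) ^ 22 := by
  rw [← comp_spec _ _ _ cW22, tW6, tW16, ← pow_add]
theorem cW30 : (app 64 W14 W16.1, app 64 W14 W16.2) = W30 := by decide +kernel
theorem tW30 : toM 64 W30 = Nw (ZMod 64) ^ 30 := by
  rw [← comp_spec _ _ _ cW30, tW14, tW16, ← pow_add]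
theorem cW38 : (app 64 W6 W32.1, app 64 W6 W32.2) = W38 := by decide +kernel
theorem tW38 : toM 64 W38 = Nw (ZMod 64) ^ 38 := by
  rw [← comp_spec _ _ _ cW38, tW6, tW32, ← pow_add]
theorem cW46 : (app 64 W14 W32.1, app 64 W14 W32.2) = W46 := by decide +kernel
theorem tW46 : toM 64 W46 = Nw (ZMod 64) ^ 46 := by
  rw [← comp_spec _ _ _ cW46, tW14, tW32, ← pow_add]
theorem cW54 : (app 64 W22 W32.1, app 64 W22 W32.2) = W54 := by decide +kernel
theorem tW54 : toM 64 W54 = Nw (ZMod 64) ^ 54 := by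
  rw [← comp_spec _ _ _ cW54, tW22, tW32, ← pow_add]
theorem cW62 : (app 64 W30 W32.1, app 64 W30 W32.2) = W62 := by decide +kernel
theorem tW62 : toM 64 W62 = Nw (ZMod 64) ^ 62 := by
  rw [← comp_spec _ _ _ cW62, tW30, tW32, ← pow_add]
theorem cW12 : (app 64 W4 W8.1, app 64 W4 W8.2) = W12 := by decide +kernel
theorem tW12 : toM 64 W12 = Nw (ZMod 64) ^ 12 := by
  rw [← comp_spec _ _ _ cW12, tW4, tW8, ← pow_add]
theorem cW28 : (app 64 W12 W16.1, app 64 W12 W16.2) = W28 := by decide +kernel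
theorem tW28 : toM 64 W28 = Nw (ZMod 64) ^ 28 := by
  rw [← comp_spec _ _ _ cW28, tW12, tW16, ← pow_add]
theorem cW44 : (app 64 W12 W32.1, app 64 W12 W32.2) = W44 := by decide +kernel
theorem tW44 : toM 64 W44 = Nw (ZMod 64) ^ 44 := by
  rw [← comp_spec _ _ _ cW44, tW12, tW32, ← pow_add]
theorem cW60 : (app 64 W28 W32.1, app 64 W28 W32.2) = W60 := by decide +kernel
theorem tW60 : toM 64 W60 = Nw (ZMod 64) ^ 60 := by
  rw [← comp_spec _ _ _ cW60, tW28, tW32, ← pow_add]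
theorem cV2 : (app 8 V1 V1.1, app 8 V1 V1.2) = V2 := by decide +kernel
theorem tV2 : toM 8 V2 = (1 + My (ZMod 8)) ^ 2 := by
  rw [← comp_spec _ _ _ cV2, tV1, ← pow_add]
theorem cV4 : (app 8 V2 V2.1, app 8 V2 V2.2) = V4 := by decide +kernel
theorem tV4 : toM 8 V4 = (1 + My (ZMod 8)) ^ 4 := by
  rw [← comp_spec _ _ _ cV4, tV2, ← pow_add]
theorem cV8 : (app 8 V4 V4.1, app 8 V4 V4.2) = V8 := by decide +kernel
theorem tV8 : toM 8 V8 = (1 + My (ZMod 8)) ^ 8 := by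
  rw [← comp_spec _ _ _ cV8, tV4, ← pow_add]

theorem Nw64 : Nw (ZMod 64) ^ 64 = 1 := by
  have h : toM 64 W0 = 1 := by
    ext1 i j
    fin_cases i <;> fin_cases j <;> simp [toM, W0, ofL]
  rw [← tW0, h]

theorem Nw_mod (k r : ℕ) : Nw (ZMod 64) ^ (64 * k + r) = Nw (ZMod 64) ^ r := by
  rw [pow_add, pow_mul, Nw64, one_pow, one_mul]

theorem My8 : (1 + My (ZMod 8)) ^ 8 = 1 := by
  have h : toM 8 V8 = 1 := by
    ext1 i j
    fin_cases i <;> fin_cases j <;> simp [toM, V8, ofL]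
  rw [← tV8, h]

theorem dec_mod (k r : ℕ) (A : Polynomial (ZMod 8)) :
    dec ((1 + Polynomial.X) ^ (8 * k + r) * A) = dec ((1 + Polynomial.X) ^ r * A) := by
  simp only [dec, map_mul, map_pow, map_add, map_one, Polynomial.aeval_X]
  rw [pow_add, pow_mul, My8, one_pow, one_mul]

theorem TU_mod (k r : ℕ) (d : Fin 2) (A : Polynomial (ZMod 8)) :
    TU (8 * k + r) d A = TU r d A := by
  rw [TU, TU, dec_mod]

/-- `TU` on lists, modulo 8 -/
def TUL (pw : List ℕ) (d : ℕ) (l : List ℕ) : List ℕ :=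
  match decL 8 (mulL 8 pw l) with
  | (p, q) => trim (addL 8 p (addL 8 (addMul 8 2 (0 :: q) []) (addMul 8 (2 * d) q [])))

theorem TUL_spec (pw : List ℕ) (r : ℕ) (hp : ofL 8 pw = (1 + Polynomial.X) ^ r) (d : Fin 2)
    (l : List ℕ) : TU r d (ofL 8 l) = ofL 8 (TUL pw d l) := by
  rw [TU, ← hp, ← ofL_mulL, ofL_decL]
  simp only [TUL, ofL_trim, ofL_addL, ofL_addMul, ofL, add_zero, Matrix.cons_val_zero,
    Matrix.cons_val_one]
  have hC2 : (Polynomial.C ((2 : ℕ) : ZMod 8) : Polynomial (ZMod 8)) = 2 := rfl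
  rw [Nat.cast_mul, map_mul, hC2, Polynomial.C_eq_natCast]
  simp
  ring

/-- the coefficients of `(1+X)^4` -/
def p4 : List ℕ := [1, 4, 6, 4, 1]

/-- the coefficients of `(1+X)^6` modulo 8 -/
def p6 : List ℕ := [1, 6, 7, 4, 7, 6, 1]

theorem h8 : (8 : Polynomial (ZMod 8)) = 0 := by
  have : (8 : Polynomial (ZMod 8)) = Polynomial.C 8 := rfl
  rw [this, show (8 : ZMod 8) = 0 from by decide, map_zero]

theorem hp4 : ofL 8 p4 = (1 + Polynomial.X) ^ 4 := by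
  have h4 : (Polynomial.C 4 : Polynomial (ZMod 8)) = 4 := rfl
  have h6 : (Polynomial.C 6 : Polynomial (ZMod 8)) = 6 := rfl
  simp only [p4, ofL, Nat.cast_one, Nat.cast_ofNat, map_one, h4, h6]
  ring

theorem hp6 : ofL 8 p6 = (1 + Polynomial.X) ^ 6 := by
  have h4 : (Polynomial.C 4 : Polynomial (ZMod 8)) = 4 := rfl
  have h6 : (Polynomial.C 6 : Polynomial (ZMod 8)) = 6 := rfl
  have h7 : (Polynomial.C 7 : Polynomial (ZMod 8)) = 7 := rfl
  simp only [p6, ofL, Nat.cast_one, Nat.cast_ofNat, map_one, h4, h6, h7]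
  linear_combination (-(Polynomial.X ^ 2 + 2 * Polynomial.X ^ 3 + Polynomial.X ^ 4)) * h8

/-- the two-step operator modulo `8` -/
theorem T4_one (d0 d1 : Fin 2) : TU 6 d1 (TU 4 d0 (1 : Polynomial (ZMod 8))) =
    ofL 8 (TUL p6 d1 (TUL p4 d0 [1])) := by
  have h : (1 : Polynomial (ZMod 8)) = ofL 8 [1] := by simp [ofL]
  rw [h, TUL_spec p4 4 hp4, TUL_spec p6 6 hp6]

theorem T4_X (d0 d1 : Fin 2) : TU 6 d1 (TU 4 d0 (Polynomial.X : Polynomial (ZMod 8))) =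
    ofL 8 (TUL p6 d1 (TUL p4 d0 [0, 1])) := by
  have h : (Polynomial.X : Polynomial (ZMod 8)) = ofL 8 [0, 1] := by simp [ofL]
  rw [h, TUL_spec p4 4 hp4, TUL_spec p6 6 hp6]

theorem L1 (d0 d1 : Fin 2) : TUL p6 d1 (TUL p4 d0 [1]) = [1 + 4 * (d1 : ℕ), 2 + 4 * (d1 : ℕ)] := by
  revert d0 d1; decide +kernel

theorem L2 (d0 d1 : Fin 2) : ofL 8 (TUL p6 d1 (TUL p4 d0 [0, 1])) =
    ofL 8 [2 * ((d0 : ℕ) + 2 * (d1 : ℕ)), 4 * (1 + (d0 : ℕ))] := by
  have : trim (addMul 8 1 (TUL p6 d1 (TUL p4 d0 [0, 1])) []) =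
      trim (addMul 8 1 [2 * ((d0 : ℕ) + 2 * (d1 : ℕ)), 4 * (1 + (d0 : ℕ))] []) := by
    revert d0 d1; decide +kernel
  have h2 := congrArg (ofL 8) this
  rw [ofL_trim, ofL_trim, ofL_addMul, ofL_addMul] at h2
  simpa [ofL] using h2

theorem T4_sq (d0 d1 : Fin 2) (Q : Polynomial (ZMod 8)) :
    TU 6 d1 (TU 4 d0 (Polynomial.C 2 * (Polynomial.X ^ 2 * Q))) = 0 := by
  have e1 : (1 + Polynomial.X) ^ 4 * (Polynomial.X ^ 2 * Q) =
      Polynomial.X ^ 2 * ((1 + Polynomial.X) ^ 4 * Q) := by ring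
  have hC2 : (Polynomial.C 2 : Polynomial (ZMod 8)) = 2 := rfl
  have hC4 : (Polynomial.C 4 : Polynomial (ZMod 8)) = 4 := rfl
  have e2 : ∃ K, TU 4 d0 (Polynomial.C 2 * (Polynomial.X ^ 2 * Q)) =
      Polynomial.C 4 * (Polynomial.X * K) := by
    rw [TU_C_mul, TU, e1, dec_X_sq, dec_X_sq]
    refine ⟨dec ((1 + Polynomial.X) * ((1 + Polynomial.X) ^ 4 * Q)) 0 + 2 * Polynomial.X *
        dec ((1 + Polynomial.X) * ((1 + Polynomial.X) ^ 4 * Q)) 1 + 2 * ((d0 : ℕ) :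
        Polynomial (ZMod 8)) * dec ((1 + Polynomial.X) * ((1 + Polynomial.X) ^ 4 * Q)) 1, ?_⟩
    rw [hC2, hC4]
    ring
  obtain ⟨K, hK⟩ := e2
  have e3 : (1 + Polynomial.X) ^ 6 * (Polynomial.X * K) =
      Polynomial.X * ((1 + Polynomial.X) ^ 6 * K) := by ring
  rw [hK, TU_C_mul, TU, e3, dec_X_mul, hC4]
  simp only [Matrix.cons_val_zero, Matrix.cons_val_one]
  linear_combination (Polynomial.X * dec ((1 + Polynomial.X) ^ 6 * K) 1 +
    (Polynomial.X + ((d1 : ℕ) : Polynomial (ZMod 8))) * (dec ((1 + Polynomial.X) ^ 6 * K) 0 +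
    2 * Polynomial.X * dec ((1 + Polynomial.X) ^ 6 * K) 1)) * h8

theorem T4_mod (m : ℕ) (hm : m % 8 = 6) (d0 d1 : Fin 2) (a b : ZMod 8) (Q : Polynomial (ZMod 8)) :
    TU m d1 (TU (2 * m) d0 (Polynomial.C (2 * a) + Polynomial.C b * Polynomial.X +
      Polynomial.C 2 * (Polynomial.X ^ 2 * Q))) =
    Polynomial.C (2 * a + 2 * b * ((d0 : ℕ) + 2 * (d1 : ℕ))) +
      Polynomial.C (4 * a + 4 * b * (1 + (d0 : ℕ))) * Polynomial.X := by
  obtain ⟨k, rfl⟩ : ∃ k, m = 8 * k + 6 := ⟨m / 8, by omega⟩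
  have e2 : 2 * (8 * k + 6) = 8 * (2 * k + 1) + 4 := by ring
  rw [e2, TU_mod, TU_mod, TU_add, TU_add, T4_sq, add_zero]
  have e3 : (Polynomial.C (2 * a) : Polynomial (ZMod 8)) = Polynomial.C (2 * a) * 1 := by
    rw [mul_one]
  conv_lhs => rw [e3]
  rw [TU_add, TU_C_mul, TU_C_mul, TU_add, TU_C_mul, TU_C_mul, T4_one, T4_X, L1, L2]
  have hC2 : (Polynomial.C 2 : Polynomial (ZMod 8)) = 2 := rfl
  have hC4 : (Polynomial.C 4 : Polynomial (ZMod 8)) = 4 := rfl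
  simp only [ofL, Nat.cast_add, Nat.cast_mul, Nat.cast_one, Nat.cast_ofNat, map_add, map_mul,
    map_one, hC2, hC4, mul_zero, add_zero, Polynomial.C_eq_natCast, map_natCast]
  linear_combination (Polynomial.C a * ((d1 : ℕ) : Polynomial (ZMod 8)) * (1 + Polynomial.X)) * h8

theorem ker_map (n : ℕ) (p : Polynomial ℤ) (h : p.map (Int.castRingHom (ZMod n)) = 0) :
    ∃ q : Polynomial ℤ, p = Polynomial.C (n : ℤ) * q := by
  have h3 : Polynomial.C (n : ℤ) ∣ p := by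
    rw [Polynomial.C_dvd_iff_dvd_coeff]
    intro i
    rw [← ZMod.intCast_zmod_eq_zero_iff_dvd]
    have := congrArg (fun p => Polynomial.coeff p i) h
    simpa using this
  exact h3

/-- the form of the polynomials in the induction -/
noncomputable def fm (a b : ℤ) (Q : Polynomial ℤ) : Polynomial ℤ :=
  Polynomial.C (2 * a) + Polynomial.C b * Polynomial.X + Polynomial.C 2 * (Polynomial.X ^ 2 * Q)

theorem fm_of (Q : Polynomial ℤ) : ∃ (a b : ℤ) (Q' : Polynomial ℤ), b % 2 = 1 ∧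
    Polynomial.X + Polynomial.C 2 * Q = fm a b Q' := by
  refine ⟨Q.coeff 0, 1 + 2 * Q.divX.coeff 0, Q.divX.divX, by omega, ?_⟩
  have h1 := Polynomial.X_mul_divX_add Q
  have h2 := Polynomial.X_mul_divX_add Q.divX
  rw [fm]
  conv_lhs => rw [← h1, ← h2]
  simp only [map_add, map_mul, map_one]
  ring

theorem step (m : ℕ) (hm : m % 8 = 6) (a b : ℤ) (hb : b % 2 = 1) (Q : Polynomial ℤ) :
    ∃ (d0 d1 : Fin 2) (a' b' : ℤ) (Q' : Polynomial ℤ), b' % 2 = 1 ∧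
      TU m d1 (TU (2 * m) d0 (fm a b Q)) = Polynomial.C 4 * fm a' b' Q' := by
  have hd : ∃ d0 d1 : Fin 2, (a + b * ((d0 : ℕ) + 2 * (d1 : ℕ))) % 4 = 0 := by
    have ha4 : a % 4 = 0 ∨ a % 4 = 1 ∨ a % 4 = 2 ∨ a % 4 = 3 := by omega
    have hb4 : b % 4 = 1 ∨ b % 4 = 3 := by omega
    rcases ha4 with h | h | h | h <;> rcases hb4 with h' | h'
    · exact ⟨0, 0, by simp; omega⟩
    · exact ⟨0, 0, by simp; omega⟩
    · exact ⟨1, 1, by simp; omega⟩
    · exact ⟨1, 0, by simp; omega⟩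
    · exact ⟨0, 1, by simp; omega⟩
    · exact ⟨0, 1, by simp; omega⟩
    · exact ⟨1, 0, by simp; omega⟩
    · exact ⟨1, 1, by simp; omega⟩
  obtain ⟨d0, d1, hd⟩ := hd
  have hodd : (a + b * (1 + (d0 : ℕ))) % 2 = 1 := by
    have e : a + b * (1 + (d0 : ℕ)) = (a + b * ((d0 : ℕ) + 2 * (d1 : ℕ))) + b - 2 * (b * (d1 : ℕ)) := by
      ring
    rw [e]
    generalize b * ((d1 : ℕ) : ℤ) = z
    omega
  have hmap : (TU m d1 (TU (2 * m) d0 (fm a b Q)) - Polynomial.C 4 * Polynomial.X).map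
      (Int.castRingHom (ZMod 8)) = 0 := by
    rw [Polynomial.map_sub, ← TU_map, ← TU_map, fm]
    have e1 : (Polynomial.C (2 * a) + Polynomial.C b * Polynomial.X +
        Polynomial.C 2 * (Polynomial.X ^ 2 * Q)).map (Int.castRingHom (ZMod 8)) =
        Polynomial.C (2 * (a : ZMod 8)) + Polynomial.C (b : ZMod 8) * Polynomial.X +
        Polynomial.C 2 * (Polynomial.X ^ 2 * Q.map (Int.castRingHom (ZMod 8))) := by
      simp
      rw [show (Polynomial.C 2 : Polynomial (ZMod 8)) = 2 from rfl]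
    rw [e1, T4_mod m hm]
    have e2 : (2 * (a : ZMod 8) + 2 * (b : ZMod 8) * ((d0 : ℕ) + 2 * (d1 : ℕ))) = 0 := by
      have : ((2 * (a + b * ((d0 : ℕ) + 2 * (d1 : ℕ))) : ℤ) : ZMod 8) = 0 := by
        rw [ZMod.intCast_zmod_eq_zero_iff_dvd]
        generalize a + b * ((d0 : ℕ) + 2 * (d1 : ℕ)) = z at hd
        omega
      push_cast at this
      linear_combination this
    have e3 : (4 * (a : ZMod 8) + 4 * (b : ZMod 8) * (1 + (d0 : ℕ))) = 4 := by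
      have : ((4 * (a + b * (1 + (d0 : ℕ))) - 4 : ℤ) : ZMod 8) = 0 := by
        rw [ZMod.intCast_zmod_eq_zero_iff_dvd]
        generalize a + b * (1 + ((d0 : ℕ) : ℤ)) = z at hodd
        omega
      push_cast at this
      linear_combination this
    rw [e2, e3]
    simp
    rw [show (Polynomial.C 4 : Polynomial (ZMod 8)) = 4 from rfl, sub_self]
  obtain ⟨q, hq⟩ := ker_map 8 _ hmap
  obtain ⟨a', b', Q', hb', hf⟩ := fm_of q
  refine ⟨d0, d1, a', b', Q', hb', ?_⟩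
  rw [← hf, eq_add_of_sub_eq hq]
  have h8 : (Polynomial.C ((8 : ℕ) : ℤ) : Polynomial ℤ) = Polynomial.C 4 * Polynomial.C 2 := by
    rw [← map_mul]; norm_num
  rw [h8]
  ring

theorem ru_C_mul (g : PowerSeries ℤ) (c : ℤ) (A : Polynomial ℤ) :
    ru g (Polynomial.C c * A) = C c * ru g A := by
  rw [ru, map_mul, Polynomial.aeval_C, ru]
  have h1 : (algebraMap ℤ (PowerSeries ℤ)) c = C c := rfl
  rw [h1]
  ring

theorem coeff_sec {R : Type*} [CommRing R] (d : ℕ) (F : PowerSeries R) (n : ℕ) :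
    coeff n (Lam.sec d F) = coeff (2 * n + d) F := by
  rw [Lam.sec, coeff_mk]

theorem iterate (m : ℕ) (hm : m % 8 = 6) (g : PowerSeries ℤ)
    (hg : g = (U ^ 4 * (1 - X ^ 4)) ^ m * E 4 g) (i : ℕ) : ∀ (a b : ℤ) (Q : Polynomial ℤ),
    b % 2 = 1 → ∃ e : ℕ, (4 : ℤ) ^ i ∣ coeff e (ru g (fm a b Q)) := by
  induction i with
  | zero => intro a b Q _; exact ⟨0, by simp⟩
  | succ i ih =>
    intro a b Q hb
    obtain ⟨d0, d1, a', b', Q', hb', hT⟩ := step m hm a b hb Q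
    obtain ⟨e, he⟩ := ih a' b' Q' hb'
    refine ⟨2 * (2 * e + d1) + d0, ?_⟩
    rw [← coeff_sec, ← coeff_sec, four_ru m g hg, hT, ru_C_mul, coeff_C_mul, pow_succ, mul_comm]
    exact mul_dvd_mul_left 4 he

/-! ### the start -/

theorem fin_step (m : ℕ) (hm : m % 8 = 6) (s : ℤ × Polynomial ℤ)
    (hs : abm (2 * m) (mp (Int.castRingHom (ZMod 64)) s) 1 = ofL 64 [0, 32, 48, 16]) :
    ∃ (a b : ℤ) (Q : Polynomial ℤ), b % 2 = 1 ∧
      TU m 0 (abm (2 * m) s 1) = Polynomial.C 32 * fm a b Q := by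
  -- lift
  have h1 : (abm (2 * m) s 1 - Polynomial.C 16 * (Polynomial.C 2 * Polynomial.X +
      Polynomial.C 3 * Polynomial.X ^ 2 + Polynomial.X ^ 3)).map
      (Int.castRingHom (ZMod 64)) = 0 := by
    rw [Polynomial.map_sub, ← abm_mp, hs]
    simp [ofL]
    have e16 : (Polynomial.C 16 : Polynomial (ZMod 64)) = 16 := rfl
    have e32 : (Polynomial.C 32 : Polynomial (ZMod 64)) = 32 := rfl
    have e48 : (Polynomial.C 48 : Polynomial (ZMod 64)) = 48 := rfl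
    have e2 : (Polynomial.C 2 : Polynomial (ZMod 64)) = 2 := rfl
    have e3 : (Polynomial.C 3 : Polynomial (ZMod 64)) = 3 := rfl
    rw [e16, e32, e48]
    try rw [e2]
    try rw [e3]
    ring
  obtain ⟨q1, hq1⟩ := ker_map 64 _ h1
  have h2 : (TU m 0 (Polynomial.C 2 * Polynomial.X + Polynomial.C 3 * Polynomial.X ^ 2 +
      Polynomial.X ^ 3 : Polynomial ℤ)).map (Int.castRingHom (ZMod 8)) =
      ofL 8 (TUL p6 0 [0, 2, 3, 1]) := by
    rw [← TU_map]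
    have e : (Polynomial.C 2 * Polynomial.X + Polynomial.C 3 * Polynomial.X ^ 2 +
      Polynomial.X ^ 3 : Polynomial ℤ).map (Int.castRingHom (ZMod 8)) = ofL 8 [0, 2, 3, 1] := by
      simp [ofL]
      have e2 : (Polynomial.C 2 : Polynomial (ZMod 8)) = 2 := rfl
      have e3 : (Polynomial.C 3 : Polynomial (ZMod 8)) = 3 := rfl
      try rw [e2]
      try rw [e3]
      ring
    obtain ⟨k, hk⟩ : ∃ k, m = 8 * k + 6 := ⟨m / 8, by omega⟩
    rw [e, hk, TU_mod, TUL_spec p6 6 hp6]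
    rfl
  have h3 : (TU m 0 (Polynomial.C 2 * Polynomial.X + Polynomial.C 3 * Polynomial.X ^ 2 +
      Polynomial.X ^ 3 : Polynomial ℤ) - Polynomial.C 2 * Polynomial.X).map
      (Int.castRingHom (ZMod 8)) = 0 := by
    have hl : TUL p6 0 [0, 2, 3, 1] = [0, 2] := by decide +kernel
    rw [Polynomial.map_sub, h2, hl]
    simp [ofL]
    rw [show (Polynomial.C 2 : Polynomial (ZMod 8)) = 2 from rfl]
    ring
  obtain ⟨q2, hq2⟩ := ker_map 8 _ h3
  obtain ⟨a, b, Q, hb, hQ⟩ := fm_of (Polynomial.C 2 * q2 + TU m 0 q1)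
  refine ⟨a, b, Q, hb, ?_⟩
  rw [eq_add_of_sub_eq hq1, TU_add, TU_C_mul, TU_C_mul, eq_add_of_sub_eq hq2, ← hQ]
  have h64 : (Polynomial.C ((64 : ℕ) : ℤ) : Polynomial ℤ) = 64 := rfl
  have h8 : (Polynomial.C ((8 : ℕ) : ℤ) : Polynomial ℤ) = 8 := rfl
  have h16 : (Polynomial.C 16 : Polynomial ℤ) = 16 := rfl
  have h32 : (Polynomial.C 32 : Polynomial ℤ) = 32 := rfl
  have hC2 : (Polynomial.C 2 : Polynomial ℤ) = 2 := rfl
  rw [h64, h8, h16, h32, hC2]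
  ring

/-- the second component of `abm` on lists -/
def abL (A : (List ℕ × List ℕ) × (List ℕ × List ℕ)) (c : ℕ) (Q : List ℕ) : List ℕ :=
  (app 64 A (addL 64 [c] (0 :: (decL 64 Q).2),
    addL 64 (decL 64 Q).1 (0 :: addMul 64 2 (decL 64 Q).2 []))).2

theorem abL_spec (m : ℕ) (A : (List ℕ × List ℕ) × (List ℕ × List ℕ))
    (hA : toM 64 A = Nw (ZMod 64) ^ m) (c : ℕ) (Q : List ℕ) :
    abm m (pr 64 c Q) 1 = ofL 64 (abL A c Q) := by
  have h1 : abm m (pr 64 c Q) = ![ofL 64 (app 64 A (addL 64 [c] (0 :: (decL 64 Q).2),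
      addL 64 (decL 64 Q).1 (0 :: addMul 64 2 (decL 64 Q).2 []))).1,
      ofL 64 (app 64 A (addL 64 [c] (0 :: (decL 64 Q).2),
      addL 64 (decL 64 Q).1 (0 :: addMul 64 2 (decL 64 Q).2 []))).2] := by
    rw [abm, ← hA, ← app_spec]
    congr 1
    rw [ab]
    change ![Polynomial.C (c : ZMod 64) + Polynomial.X * dec (ofL 64 Q) 1,
      dec (ofL 64 Q) 0 + 2 * Polynomial.X * dec (ofL 64 Q) 1] = _
    rw [ofL_decL]
    ext1 i
    fin_cases i
    · simp [ofL_addL, ofL]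
    · simp [ofL_addL, ofL, ofL_double]
      ring
  rw [h1]
  rfl

theorem stepT (m : ℕ) (A : (List ℕ × List ℕ) × (List ℕ × List ℕ))
    (hA : toM 64 A = Nw (ZMod 64) ^ m) (c : ℕ) (Q : List ℕ) (t : ℕ × List ℕ)
    (h : TL 64 A 0 c Q = t) :
    T m 0 (pr 64 c Q) = pr 64 t.1 t.2 := by
  rw [TL_spec m A hA, h]

theorem pr_one : mp (Int.castRingHom (ZMod 64)) (1, 0) = pr 64 1 [] := by
  rw [mp_apply]; simp [pr, ofL]

theorem classA (m : ℕ) (A B : (List ℕ × List ℕ) × (List ℕ × List ℕ))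
    (hA : toM 64 A = Nw (ZMod 64) ^ m) (hB : toM 64 B = Nw (ZMod 64) ^ (2 * m))
    (h1 : TL 64 B 0 1 [] = (1, [32, 16, 0, 16])) (h2 : TL 64 A 0 1 [32, 16, 0, 16] = (1, [8, 36]))
    (h3 : abL B 1 [8, 36] = [0, 32, 48, 16]) :
    abm (2 * m) (mp (Int.castRingHom (ZMod 64)) (T m 0 (T (2 * m) 0 (1, 0)))) 1 =
      ofL 64 [0, 32, 48, 16] := by
  rw [← T_mp, ← T_mp, pr_one, stepT _ B hB _ _ _ h1, stepT _ A hA _ _ _ h2, abL_spec _ B hB, h3]

theorem classB (m : ℕ) (A B : (List ℕ × List ℕ) × (List ℕ × List ℕ))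
    (hA : toM 64 A = Nw (ZMod 64) ^ m) (hB : toM 64 B = Nw (ZMod 64) ^ (2 * m))
    (h1 : TL 64 B 0 1 [] = (1, [32, 16, 0, 16]))
    (h2 : TL 64 A 0 1 [32, 16, 0, 16] = (1, [8, 4, 0, 32]))
    (h3 : TL 64 B 0 1 [8, 4, 0, 32] = (1, [48, 56, 0, 48]))
    (h4 : TL 64 A 0 1 [48, 56, 0, 48] = (1, [40, 52, 0, 32]))
    (h5 : abL B 1 [40, 52, 0, 32] = [0, 32, 48, 16]) :
    abm (2 * m) (mp (Int.castRingHom (ZMod 64))
      (T m 0 (T (2 * m) 0 (T m 0 (T (2 * m) 0 (1, 0)))))) 1 = ofL 64 [0, 32, 48, 16] := by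
  rw [← T_mp, ← T_mp, ← T_mp, ← T_mp, pr_one, stepT _ B hB _ _ _ h1, stepT _ A hA _ _ _ h2,
    stepT _ B hB _ _ _ h3, stepT _ A hA _ _ _ h4, abL_spec _ B hB, h5]

theorem start (m : ℕ) (hm : m % 8 = 6) : ∃ s : ℤ × Polynomial ℤ,
    (s = T m 0 (T (2 * m) 0 (1, 0)) ∨ s = T m 0 (T (2 * m) 0 (T m 0 (T (2 * m) 0 (1, 0))))) ∧
    abm (2 * m) (mp (Int.castRingHom (ZMod 64)) s) 1 = ofL 64 [0, 32, 48, 16] := by
  have hr : m % 64 = 6 ∨ m % 64 = 14 ∨ m % 64 = 22 ∨ m % 64 = 30 ∨ m % 64 = 38 ∨ m % 64 = 46 ∨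
      m % 64 = 54 ∨ m % 64 = 62 := by omega
  rcases hr with h | h | h | h | h | h | h | h
  · obtain ⟨k, rfl⟩ : ∃ k, m = 64 * k + 6 := ⟨m / 64, by omega⟩
    have hA : toM 64 W6 = Nw (ZMod 64) ^ (64 * k + 6) := by rw [Nw_mod, tW6]
    have hB : toM 64 W12 = Nw (ZMod 64) ^ (2 * (64 * k + 6)) := by
      rw [show 2 * (64 * k + 6) = 64 * (2 * k + 0) + 12 by ring, Nw_mod, tW12]
    exact ⟨_, Or.inr rfl, classB _ _ _ hA hB (by decide +kernel) (by decide +kernel)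
      (by decide +kernel) (by decide +kernel) (by decide +kernel)⟩
  · obtain ⟨k, rfl⟩ : ∃ k, m = 64 * k + 14 := ⟨m / 64, by omega⟩
    have hA : toM 64 W14 = Nw (ZMod 64) ^ (64 * k + 14) := by rw [Nw_mod, tW14]
    have hB : toM 64 W28 = Nw (ZMod 64) ^ (2 * (64 * k + 14)) := by
      rw [show 2 * (64 * k + 14) = 64 * (2 * k + 0) + 28 by ring, Nw_mod, tW28]
    exact ⟨_, Or.inl rfl, classA _ _ _ hA hB (by decide +kernel) (by decide +kernel)
      (by decide +kernel)⟩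
  · obtain ⟨k, rfl⟩ : ∃ k, m = 64 * k + 22 := ⟨m / 64, by omega⟩
    have hA : toM 64 W22 = Nw (ZMod 64) ^ (64 * k + 22) := by rw [Nw_mod, tW22]
    have hB : toM 64 W44 = Nw (ZMod 64) ^ (2 * (64 * k + 22)) := by
      rw [show 2 * (64 * k + 22) = 64 * (2 * k + 0) + 44 by ring, Nw_mod, tW44]
    exact ⟨_, Or.inr rfl, classB _ _ _ hA hB (by decide +kernel) (by decide +kernel)
      (by decide +kernel) (by decide +kernel) (by decide +kernel)⟩
  · obtain ⟨k, rfl⟩ : ∃ k, m = 64 * k + 30 := ⟨m / 64, by omega⟩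
    have hA : toM 64 W30 = Nw (ZMod 64) ^ (64 * k + 30) := by rw [Nw_mod, tW30]
    have hB : toM 64 W60 = Nw (ZMod 64) ^ (2 * (64 * k + 30)) := by
      rw [show 2 * (64 * k + 30) = 64 * (2 * k + 0) + 60 by ring, Nw_mod, tW60]
    exact ⟨_, Or.inl rfl, classA _ _ _ hA hB (by decide +kernel) (by decide +kernel)
      (by decide +kernel)⟩
  · obtain ⟨k, rfl⟩ : ∃ k, m = 64 * k + 38 := ⟨m / 64, by omega⟩
    have hA : toM 64 W38 = Nw (ZMod 64) ^ (64 * k + 38) := by rw [Nw_mod, tW38]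
    have hB : toM 64 W12 = Nw (ZMod 64) ^ (2 * (64 * k + 38)) := by
      rw [show 2 * (64 * k + 38) = 64 * (2 * k + 1) + 12 by ring, Nw_mod, tW12]
    exact ⟨_, Or.inr rfl, classB _ _ _ hA hB (by decide +kernel) (by decide +kernel)
      (by decide +kernel) (by decide +kernel) (by decide +kernel)⟩
  · obtain ⟨k, rfl⟩ : ∃ k, m = 64 * k + 46 := ⟨m / 64, by omega⟩
    have hA : toM 64 W46 = Nw (ZMod 64) ^ (64 * k + 46) := by rw [Nw_mod, tW46]
    have hB : toM 64 W28 = Nw (ZMod 64) ^ (2 * (64 * k + 46)) := by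
      rw [show 2 * (64 * k + 46) = 64 * (2 * k + 1) + 28 by ring, Nw_mod, tW28]
    exact ⟨_, Or.inl rfl, classA _ _ _ hA hB (by decide +kernel) (by decide +kernel)
      (by decide +kernel)⟩
  · obtain ⟨k, rfl⟩ : ∃ k, m = 64 * k + 54 := ⟨m / 64, by omega⟩
    have hA : toM 64 W54 = Nw (ZMod 64) ^ (64 * k + 54) := by rw [Nw_mod, tW54]
    have hB : toM 64 W44 = Nw (ZMod 64) ^ (2 * (64 * k + 54)) := by
      rw [show 2 * (64 * k + 54) = 64 * (2 * k + 1) + 44 by ring, Nw_mod, tW44]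
    exact ⟨_, Or.inr rfl, classB _ _ _ hA hB (by decide +kernel) (by decide +kernel)
      (by decide +kernel) (by decide +kernel) (by decide +kernel)⟩
  · obtain ⟨k, rfl⟩ : ∃ k, m = 64 * k + 62 := ⟨m / 64, by omega⟩
    have hA : toM 64 W62 = Nw (ZMod 64) ^ (64 * k + 62) := by rw [Nw_mod, tW62]
    have hB : toM 64 W60 = Nw (ZMod 64) ^ (2 * (64 * k + 62)) := by
      rw [show 2 * (64 * k + 62) = 64 * (2 * k + 1) + 60 by ring, Nw_mod, tW60]
    exact ⟨_, Or.inl rfl, classA _ _ _ hA hB (by decide +kernel) (by decide +kernel)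
      (by decide +kernel)⟩

theorem main (m : ℕ) (hm : m % 8 = 6) (g : PowerSeries ℤ)
    (hg : g = (U ^ 4 * (1 - X ^ 4)) ^ m * E 4 g) (i : ℕ) :
    ∃ n : ℕ, (4 : ℤ) ^ i ∣ coeff n g := by
  obtain ⟨s, hs, hab⟩ := start m hm
  obtain ⟨a, b, Q, hb, hQ⟩ := fin_step m hm s hab
  obtain ⟨e, he⟩ := iterate m hm g hg i a b Q hb
  have h0 : rep g (1, 0) = g := by rw [rep]; simp
  have hq : ∀ t : ℤ × Polynomial ℤ, ∀ n,
      coeff n (rep g (T m 0 (T (2 * m) 0 t))) = coeff (4 * n) (rep g t) := by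
    intro t n
    rw [← four_rep m g hg 0 0 t, coeff_sec, coeff_sec]
    congr 1
    simp
    ring
  have h1 : ∃ n : ℕ, coeff (4 * e + 1) (rep g s) = coeff n g := by
    rcases hs with rfl | rfl
    · rw [hq, h0]; exact ⟨_, rfl⟩
    · rw [hq, hq, h0]; exact ⟨_, rfl⟩
  obtain ⟨n, hn⟩ := h1
  refine ⟨n, ?_⟩
  have h2 : coeff (4 * e + 1) (rep g s) = coeff e (Lam.sec 0 (Lam.sec 1 (rep g s))) := by
    rw [coeff_sec, coeff_sec]
    congr 1
    ring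
  rw [← hn, h2, four_rep_ru m g hg, hQ, ru_C_mul, coeff_C_mul]
  exact Dvd.dvd.mul_left he 32

/-- **Q1 of the problem**: for every `m ≡ 6 mod 8` and every `B` there is an `n` such that
`4^B` divides `S_{4,m}(n)`. -/
theorem result (m : ℕ) (hm : m % 8 = 6) (B : ℕ) : ∃ n : ℕ, 4 ^ B ∣ S 4 m n := by
  obtain ⟨g, hg, h0⟩ := exists_S (R := ℤ) (b := 4) (by norm_num) m
  obtain ⟨n, hn⟩ := main m hm g hg B
  refine ⟨n, ?_⟩
  have h1 : (S 4 m n : ℤ) = coeff n g := S_spec (b := 4) (by norm_num) m g hg h0 n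
  rw [← h1] at hn
  exact_mod_cast hn

end Pool.Agent.Results.MP_53b42b_nt.Full
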