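import Mathlib
import Pool.Agent.Q35.Col
import Pool.Agent.Q35.Auto

namespace Pool.Agent.Results.MP_7b566e_nt.Disproof

open PowerSeries Pool.Agent.Q35 Pool.Agent.Q35.Auto

/-- `A m k n`, the number of `k`-coloured `m`-ary partitions of `n`: the coefficient of `x^n` in
the `k`-th power of the product of the series `1/(1 - x^(m^i))`; the factors with `i > n` do not
influence this coefficient. -/
noncomputable def A (m k n : ℕ) : ℕ :=
  coeff n ((∏ i ∈ Finset.range (n + 1), mk fun j => if m ^ i ∣ j then (1 : ℕ) else 0) ^ k)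

/-! ### generalities -/

section gen

variable {R : Type*} [CommRing R]

theorem coeff_one_sub_pow (N : ℕ) : ∀ n : ℕ,
    coeff n ((1 - X : PowerSeries R) ^ N) = (-1) ^ n * (N.choose n : R) := by
  induction N with
  | zero =>
    intro n
    rw [pow_zero, coeff_one]
    cases n with
    | zero => simp
    | succ n => simp
  | succ N ih =>
    intro n
    have e : (1 - X : PowerSeries R) ^ (N + 1) = (1 - X) ^ N - X * (1 - X) ^ N := by ring
    cases n with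
    | zero => rw [e, map_sub, coeff_zero_X_mul, ih]; simp
    | succ n =>
      rw [e, map_sub, coeff_succ_X_mul, ih, ih, Nat.choose_succ_succ]
      push_cast
      ring

theorem coeff_mul_E (b : ℕ) [NeZero b] (P φ : PowerSeries R) (hP : ∀ j, b ≤ j → coeff j P = 0)
    (n d : ℕ) (hd : d < b) : coeff (b * n + d) (P * E b φ) = coeff d P * coeff n φ := by
  have hb : 0 < b := Nat.pos_of_ne_zero (NeZero.ne b)
  rw [coeff_mul, Finset.sum_eq_single (d, b * n)]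
  · rw [coeff_E, if_pos (dvd_mul_right b n), Nat.mul_div_cancel_left n hb]
  · rintro ⟨i, j⟩ hij hne
    rw [Finset.HasAntidiagonal.mem_antidiagonal] at hij
    simp only at hij ⊢
    by_cases hi : b ≤ i
    · rw [hP i hi, zero_mul]
    · by_cases hj : b ∣ j
      · exfalso
        obtain ⟨k, rfl⟩ := hj
        have h1 : (i + b * k) % b = (b * n + d) % b := by rw [hij]
        rw [Nat.add_mul_mod_self_left, Nat.mul_add_mod, Nat.mod_eq_of_lt (by omega),
          Nat.mod_eq_of_lt hd] at h1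
        subst h1
        apply hne
        have : b * k = b * n := by omega
        rw [this]
      · rw [coeff_E, if_neg hj, mul_zero]
  · intro hne
    exact absurd (Finset.HasAntidiagonal.mem_antidiagonal.mpr (by ring)) hne

end gen

/-! ### the computation -/

/-- the coefficients of `(1-x)^10` modulo `1331` -/
def tb : List ℕ := [1, 1321, 45, 1211, 210, 1079, 210, 1211, 45, 1321, 1]

/-- digit products -/
def phiN : ℕ → ℕ → ℕ
  | 0, _ => 1
  | f + 1, n => (tb.getD (n % 11) 0 * phiN f (n / 11)) % 1331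

/-- one step of the summation -/
def stp (s : ℕ × ℕ × ℕ) : ℕ × ℕ × ℕ :=
  force (s.1 + 1) fun i' => force (s.2.1 * (1089 - s.1) / (s.1 + 1)) fun c' =>
    force ((s.2.2 + 1330 ^ (s.1 % 2) * (s.2.1 % 1331) * phiN 4 (1452 - s.1)) % 1331) fun a' =>
      (i', c', a')

/-- `2^k` steps -/
def run : ℕ → ℕ × ℕ × ℕ → ℕ × ℕ × ℕ
  | 0, s => stp s
  | k + 1, s =>
    match run k s with
    | (i, c, a) => run k (i, c, a)

/-- the terms -/
def term (i : ℕ) : ZMod 1331 :=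
  (-1) ^ i * ((Nat.choose 1089 i : ℕ) : ZMod 1331) * ((phiN 4 (1452 - i) : ℕ) : ZMod 1331)

theorem stp_spec (s : ℕ × ℕ × ℕ) (h : s.2.1 = Nat.choose 1089 s.1) :
    (stp s).1 = s.1 + 1 ∧ (stp s).2.1 = Nat.choose 1089 (s.1 + 1) ∧
    (((stp s).2.2 : ℕ) : ZMod 1331) = ((s.2.2 : ℕ) : ZMod 1331) + term s.1 := by
  have h1 : stp s = (s.1 + 1, s.2.1 * (1089 - s.1) / (s.1 + 1),
      (s.2.2 + 1330 ^ (s.1 % 2) * (s.2.1 % 1331) * phiN 4 (1452 - s.1)) % 1331) := by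
    simp only [stp, force_eq]
  rw [h1]
  refine ⟨rfl, ?_, ?_⟩
  · simp only
    rw [h, ← Nat.choose_succ_right_eq, Nat.mul_div_cancel _ (Nat.succ_pos _)]
  · simp only
    rw [ZMod.natCast_mod, term, ← h]
    push_cast
    rw [ZMod.natCast_mod]
    have e : (1330 : ZMod 1331) = -1 := by decide
    rw [e]
    have e2 : (-1 : ZMod 1331) ^ (s.1 % 2) = (-1) ^ s.1 := by
      conv_rhs => rw [← Nat.div_add_mod s.1 2, pow_add, pow_mul]
      simp
    rw [e2]

theorem run_spec (k : ℕ) : ∀ s : ℕ × ℕ × ℕ, s.2.1 = Nat.choose 1089 s.1 →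
    (run k s).1 = s.1 + 2 ^ k ∧ (run k s).2.1 = Nat.choose 1089 (s.1 + 2 ^ k) ∧
    (((run k s).2.2 : ℕ) : ZMod 1331) = ((s.2.2 : ℕ) : ZMod 1331) +
      ∑ j ∈ Finset.range (2 ^ k), term (s.1 + j) := by
  induction k with
  | zero =>
    intro s h
    obtain ⟨h1, h2, h3⟩ := stp_spec s h
    refine ⟨h1, h2, ?_⟩
    rw [run, h3]
    simp
  | succ k ih =>
    intro s h
    have e : run (k + 1) s = run k (run k s) := rfl
    obtain ⟨h1, h2, h3⟩ := ih s h
    obtain ⟨g1, g2, g3⟩ := ih (run k s) (by rw [h2, h1])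
    rw [e]
    refine ⟨by rw [g1, h1, pow_succ]; ring, by rw [g2, h1, pow_succ]; congr 1; ring, ?_⟩
    rw [g3, h3, h1, pow_succ, mul_two, Finset.sum_range_add, add_assoc]
    simp only [add_assoc]

theorem comp : (run 1 (run 6 (run 10 (0, 1, 0)))).2.2 = 0 := by decide +kernel

theorem sum_zero : ∑ i ∈ Finset.range 1090, term i = 0 := by
  have h0 : ((0, 1, 0) : ℕ × ℕ × ℕ).2.1 = Nat.choose 1089 ((0, 1, 0) : ℕ × ℕ × ℕ).1 := by simp
  obtain ⟨a1, a2, a3⟩ := run_spec 10 (0, 1, 0) h0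
  obtain ⟨b1, b2, b3⟩ := run_spec 6 _ (by rw [a2, a1])
  obtain ⟨c1, c2, c3⟩ := run_spec 1 _ (by rw [b2, b1])
  rw [comp, b3, a3, b1, a1] at c3
  have e : 1090 = 2 ^ 10 + 2 ^ 6 + 2 ^ 1 := by norm_num
  rw [e, Finset.sum_range_add, Finset.sum_range_add]
  simp only [Nat.cast_zero, zero_add] at c3
  exact c3.symm

/-! ### the series -/

theorem phi_coeff (φ : PowerSeries (ZMod 1331)) (hφ : φ = (1 - X) ^ 10 * E 11 φ)
    (h0 : coeff 0 φ = 1) (f : ℕ) : ∀ n, n < 11 ^ f → coeff n φ = ((phiN f n : ℕ) : ZMod 1331) := by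
  induction f with
  | zero =>
    intro n hn
    have : n = 0 := by omega
    subst this
    rw [h0, phiN, Nat.cast_one]
  | succ f ih =>
    intro n hn
    have h1 := coeff_mul_E 11 ((1 - X) ^ 10) φ (by
      intro j hj
      rw [coeff_one_sub_pow, Nat.choose_eq_zero_of_lt (by omega), Nat.cast_zero, mul_zero])
      (n / 11) (n % 11) (Nat.mod_lt _ (by norm_num))
    rw [← hφ, Nat.div_add_mod, coeff_one_sub_pow, ih (n / 11) (by rw [pow_succ] at hn; omega)] at h1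
    rw [h1, phiN, ZMod.natCast_mod, Nat.cast_mul]
    congr 1
    have hd : n % 11 < 11 := Nat.mod_lt _ (by norm_num)
    interval_cases n % 11 <;> decide

theorem pow_w : ((U : PowerSeries (ZMod 1331)) ^ 11 * (1 - X ^ 11)) ^ 121 = 1 := by
  have h : (1331 : PowerSeries (ZMod 1331)) = 0 := by
    have : (1331 : PowerSeries (ZMod 1331)) = C 1331 := rfl
    rw [this, show (1331 : ZMod 1331) = 0 from by decide, map_zero]
  obtain ⟨Y, hY⟩ : ∃ Y : PowerSeries (ZMod 1331), (U : PowerSeries (ZMod 1331)) ^ 11 *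
      (1 - X ^ 11) = 1 + 11 * Y := by
    have h2 : (U : PowerSeries (ZMod 1331)) ^ 11 * (1 - X) ^ 11 = 1 := by
      rw [← mul_pow, U_mul, one_pow]
    refine ⟨U ^ 11 * (X - 5 * X ^ 2 + 15 * X ^ 3 - 30 * X ^ 4 + 42 * X ^ 5 - 42 * X ^ 6 +
      30 * X ^ 7 - 15 * X ^ 8 + 5 * X ^ 9 - X ^ 10), ?_⟩
    linear_combination h2
  rw [hY]
  have e1 : ∃ Z, (1 + 11 * Y) ^ 11 = 1 + 121 * Z := by
    refine ⟨Y + 5 * 11 * Y ^ 2 + 15 * 11 ^ 2 * Y ^ 3 + 30 * 11 ^ 3 * Y ^ 4 + 42 * 11 ^ 4 * Y ^ 5 +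
      42 * 11 ^ 5 * Y ^ 6 + 30 * 11 ^ 6 * Y ^ 7 + 15 * 11 ^ 7 * Y ^ 8 + 5 * 11 ^ 8 * Y ^ 9 +
      11 ^ 9 * Y ^ 10 + 11 ^ 9 * Y ^ 11, ?_⟩
    ring
  obtain ⟨Z, hZ⟩ := e1
  have e2 : ∃ T, (1 + 121 * Z) ^ 11 = 1 + 1331 * T := by
    refine ⟨Z + 5 * 121 * Z ^ 2 + 15 * 121 ^ 2 * Z ^ 3 + 30 * 121 ^ 3 * Z ^ 4 +
      42 * 121 ^ 4 * Z ^ 5 + 42 * 121 ^ 5 * Z ^ 6 + 30 * 121 ^ 6 * Z ^ 7 + 15 * 121 ^ 7 * Z ^ 8 +
      5 * 121 ^ 8 * Z ^ 9 + 121 ^ 9 * Z ^ 10 + 11 * 121 ^ 9 * Z ^ 11, ?_⟩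
    ring
  obtain ⟨T, hT⟩ := e2
  calc (1 + 11 * Y) ^ 121 = ((1 + 11 * Y) ^ 11) ^ 11 := by rw [← pow_mul]
    _ = 1 := by rw [hZ, hT, h, zero_mul, add_zero]

theorem alg {R : Type*} [CommRing R] (u V W : R) (a b k : ℕ) (h : u * V = 1)
    (hw : (u ^ 11 * W) ^ k = 1) (hab : a + b = 11 * k) : u ^ a * W ^ k = V ^ b := by
  calc u ^ a * W ^ k = u ^ a * W ^ k * (u * V) ^ b := by rw [h, one_pow, mul_one]
    _ = (u ^ (a + b) * W ^ k) * V ^ b := by rw [mul_pow, pow_add]; ring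
    _ = V ^ b := by rw [hab, pow_mul, ← mul_pow, hw, one_mul]

theorem pow_w' : ((U : PowerSeries (ZMod 1331)) ^ 11 * (1 - X ^ 11)) ^ 1089 = 1 := by
  have h := pow_w
  generalize (U : PowerSeries (ZMod 1331)) ^ 11 * (1 - X ^ 11) = Y at h
  have e : (1089 : ℕ) = 121 * 9 := by norm_num
  rw [e, pow_mul, h, one_pow]

theorem funcF (φ : PowerSeries (ZMod 1331)) (hφ : φ = (1 - X) ^ 10 * E 11 φ) :
    (1 - X) ^ 1089 * φ = U ^ 10880 * E 11 ((1 - X) ^ 1089 * φ) := by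
  have e1 : (U : PowerSeries (ZMod 1331)) ^ 10880 * (1 - X ^ 11) ^ 1089 = (1 - X) ^ 1099 :=
    alg U (1 - X) (1 - X ^ 11) 10880 1099 1089 U_mul pow_w' (by norm_num)
  rw [map_mul, map_pow, map_sub, map_one, E_X, ← mul_assoc, e1]
  conv_lhs => rw [hφ]
  rw [← mul_assoc, ← pow_add]

theorem key : ((A 11 10880 1452 : ℕ) : ZMod 1331) = 0 := by
  obtain ⟨φ, hφ, h0⟩ := exists_func (R := ZMod 1331) (b := 11) (by norm_num) ((1 - X) ^ 10)
    (by simp)
  have hFE := funcF φ hφ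
  have hF0 : coeff 0 ((1 - X) ^ 1089 * φ) = 1 := by
    rw [coeff_zero_eq_constantCoeff_apply, map_mul, ← coeff_zero_eq_constantCoeff_apply (φ := φ),
      h0, map_pow, map_sub, map_one, constantCoeff_X, sub_zero, one_pow, mul_one]
  have hA : ((A 11 10880 1452 : ℕ) : ZMod 1331) = coeff 1452 ((1 - X) ^ 1089 * φ) := by
    have h1 := cast_coeff (R := ZMod 1331) 11 0 10880 1452 (1452 + 1)
    rw [pow_zero, one_mul, pow_zero] at h1
    rw [A, h1, coeff_geo_prod (by norm_num) 10880 _ hFE hF0 1452 (1452 + 1) (by norm_num), one_mul]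
  rw [hA, coeff_mul, Finset.Nat.sum_antidiagonal_eq_sum_range_succ
    (fun i j => coeff i ((1 - X : PowerSeries (ZMod 1331)) ^ 1089) * coeff j φ)]
  have h2 : ∀ i ∈ Finset.range (Nat.succ 1452), coeff i ((1 - X : PowerSeries (ZMod 1331)) ^ 1089) *
      coeff (1452 - i) φ = term i := by
    intro i _
    rw [coeff_one_sub_pow, phi_coeff φ hφ h0 4 (1452 - i) (by norm_num; omega), term]
  rw [Finset.sum_congr rfl h2, ← sum_zero]
  symm
  apply Finset.sum_subset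
  · intro i hi
    rw [Finset.mem_range] at hi ⊢
    omega
  · intro i _ hi
    rw [Finset.mem_range] at hi
    rw [term, Nat.choose_eq_zero_of_lt (by omega), Nat.cast_zero, mul_zero, zero_mul]

/-- **Q1 of the problem is false**: part (i) fails for `p = 11`, `u = 9`, `s = 2` (so
`k = 10 * (9 * 121 - 1) = 10880`) and `n = 1452`, where `11^3` divides `A_{p,k}(n)`. -/
theorem result : ∃ p u s n : ℕ, p.Prime ∧ 3 ≤ p ∧ 2 ≤ u ∧ u ≤ p - 1 ∧ 1 ≤ s ∧ u * p ^ s ≤ n ∧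
    (3 : ℕ∞) ≤ emultiplicity p (A p ((p - 1) * (u * p ^ s - 1)) n) := by
  refine ⟨11, 9, 2, 1452, by norm_num, by norm_num, by norm_num, by norm_num, by norm_num,
    by norm_num, ?_⟩
  have h := key
  rw [ZMod.natCast_eq_zero_iff] at h
  have h2 : 11 ^ 3 ∣ A 11 ((11 - 1) * (9 * 11 ^ 2 - 1)) 1452 := by
    have e1 : (11 - 1) * (9 * 11 ^ 2 - 1) = 10880 := by norm_num
    have e2 : (11 : ℕ) ^ 3 = 1331 := by norm_num
    rw [e1, e2]
    exact h
  exact pow_dvd_iff_le_emultiplicity.mp h2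

end Pool.Agent.Results.MP_7b566e_nt.Disproof
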