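import Mathlib
import Pool.Agent.Q35.FourAll

namespace Pool.Agent.Results.MP_b3d406_nt.Full

open PowerSeries

/-- `S k m n`, the coefficient of `x^n` in
`(1-x)^(-m) ∏_{i ≥ 0} (1 - x^(k^i))^(-m(k-1))`; the factors with `i > n` do not influence this
coefficient, and `1/(1-x^d)` is written as the series with coefficient `1` at the multiples of `d`
and `0` elsewhere. -/
noncomputable def S (k m n : ℕ) : ℕ :=
  coeff n ((mk fun _ => (1 : ℕ)) ^ m *
    (∏ i ∈ Finset.range (n + 1), mk fun j => if k ^ i ∣ j then (1 : ℕ) else 0) ^ (m * (k - 1)))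

/-- the largest `s` with `4^s ∣ N` (for `N ≥ 1`) -/
noncomputable def phi4 (N : ℕ) : ℕ := multiplicity 4 N

/-- the `k`-kernel of a sequence -/
def kernel (k : ℕ) (e : ℕ → ℕ) : Set (ℕ → ℕ) :=
  {s | ∃ i j : ℕ, j < k ^ i ∧ s = fun n => e (k ^ i * n + j)}

theorem S_zero (k m : ℕ) : S k m 0 = 1 := by
  rw [S, coeff_zero_eq_constantCoeff_apply, map_mul, map_pow, map_pow, map_prod]
  have h1 : constantCoeff (mk fun _ => (1 : ℕ)) = 1 := by
    rw [← coeff_zero_eq_constantCoeff_apply, coeff_mk]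
  have h2 : ∀ i, constantCoeff (mk fun j => if k ^ i ∣ j then (1 : ℕ) else 0) = 1 := by
    intro i
    rw [← coeff_zero_eq_constantCoeff_apply, coeff_mk, if_pos (dvd_zero _)]
  simp [h1, h2]

theorem coeff_pow_pos (m n : ℕ) (hm : 1 ≤ m) : 1 ≤ coeff n ((mk fun _ => (1 : ℕ)) ^ m) := by
  induction m with
  | zero => omega
  | succ m ih =>
    rcases Nat.eq_zero_or_pos m with rfl | h
    · simp
    · rw [pow_succ, coeff_mul]
      have : coeff (n, 0).1 ((mk fun _ => (1 : ℕ)) ^ m) * coeff (n, 0).2 (mk fun _ => (1 : ℕ)) ≤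
          ∑ p ∈ Finset.HasAntidiagonal.antidiagonal n, coeff p.1 ((mk fun _ => (1 : ℕ)) ^ m) *
            coeff p.2 (mk fun _ => (1 : ℕ)) := by
        apply Finset.single_le_sum (f := fun p : ℕ × ℕ => coeff p.1 ((mk fun _ => (1 : ℕ)) ^ m) *
            coeff p.2 (mk fun _ => (1 : ℕ))) (fun _ _ => Nat.zero_le _)
        simp [Finset.HasAntidiagonal.mem_antidiagonal]
      refine le_trans ?_ this
      simp only [coeff_mk, mul_one]
      exact ih h

theorem S_pos (k m n : ℕ) (hm : 1 ≤ m) : 1 ≤ S k m n := by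
  rw [S, coeff_mul]
  set B := (∏ i ∈ Finset.range (n + 1), mk fun j => if k ^ i ∣ j then (1 : ℕ) else 0) ^ (m * (k - 1))
    with hB
  have hB0 : coeff 0 B = 1 := by
    rw [hB, coeff_zero_eq_constantCoeff_apply, map_pow, map_prod]
    have h2 : ∀ i, constantCoeff (mk fun j => if k ^ i ∣ j then (1 : ℕ) else 0) = 1 := by
      intro i
      rw [← coeff_zero_eq_constantCoeff_apply, coeff_mk, if_pos (dvd_zero _)]
    simp [h2]
  have : coeff (n, 0).1 ((mk fun _ => (1 : ℕ)) ^ m) * coeff (n, 0).2 B ≤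
      ∑ p ∈ Finset.HasAntidiagonal.antidiagonal n, coeff p.1 ((mk fun _ => (1 : ℕ)) ^ m) *
        coeff p.2 B := by
    apply Finset.single_le_sum (f := fun p : ℕ × ℕ => coeff p.1 ((mk fun _ => (1 : ℕ)) ^ m) *
        coeff p.2 B) (fun _ _ => Nat.zero_le _)
    simp [Finset.HasAntidiagonal.mem_antidiagonal]
  refine le_trans ?_ this
  simp only [hB0, mul_one]
  exact coeff_pow_pos m n hm

theorem phi4_eq (N : ℕ) (hN : N ≠ 0) : phi4 N = padicValNat 2 N / 2 := by
  have : Fact (Nat.Prime 2) := ⟨Nat.prime_two⟩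
  apply multiplicity_eq_of_dvd_of_not_dvd
  · rw [show (4 : ℕ) = 2 ^ 2 by norm_num, ← pow_mul, padicValNat_dvd_iff_le hN]
    omega
  · rw [show (4 : ℕ) = 2 ^ 2 by norm_num, ← pow_mul, padicValNat_dvd_iff_le hN]
    omega

theorem val_add (i n j : ℕ) (hj : j ≠ 0) (h : j < 4 ^ i) :
    padicValNat 2 (4 ^ i * n + j) = padicValNat 2 j := by
  have : Fact (Nat.Prime 2) := ⟨Nat.prime_two⟩
  have h4 : (4 : ℕ) ^ i = 2 ^ (2 * i) := by rw [pow_mul]; norm_num
  have hle : padicValNat 2 j < 2 * i := by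
    have h1 : 2 ^ padicValNat 2 j ≤ j := Nat.le_of_dvd (Nat.pos_of_ne_zero hj) pow_padicValNat_dvd
    have h2 : 2 ^ padicValNat 2 j < 2 ^ (2 * i) := by rw [← h4]; omega
    exact (Nat.pow_lt_pow_iff_right (by norm_num)).mp h2
  have key : ∀ e, e ≤ 2 * i → (2 ^ e ∣ 4 ^ i * n + j ↔ 2 ^ e ∣ j) := by
    intro e he
    have hd : 2 ^ e ∣ 4 ^ i * n := by
      rw [h4]
      exact Dvd.dvd.mul_right (pow_dvd_pow 2 he) n
    exact (Nat.dvd_add_right hd)
  have hne : 4 ^ i * n + j ≠ 0 := by omega
  apply le_antisymm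
  · by_contra hc
    have h1 : padicValNat 2 j + 1 ≤ padicValNat 2 (4 ^ i * n + j) := by omega
    rw [← padicValNat_dvd_iff_le hne, key _ (by omega), padicValNat_dvd_iff_le hj] at h1
    omega
  · rw [← padicValNat_dvd_iff_le hne, key _ (by omega)]
    exact pow_padicValNat_dvd

/-- **Q1 of the problem**: for every positive `m` not congruent to `6` modulo `8` the sequence
`φ_4(S_{4,m}(n))` is `4`-automatic, that is, its `4`-kernel is finite. -/
theorem result (m : ℕ) (hm : 1 ≤ m) (h6 : m % 8 ≠ 6) :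
    (kernel 4 (fun n => phi4 (S 4 m n))).Finite := by
  have : Fact (Nat.Prime 2) := ⟨Nat.prime_two⟩
  obtain ⟨h, hper, hval⟩ := Pool.Agent.Q35.val_all m hm h6
  set e : ℕ → ℕ := fun n => phi4 (S 4 m n) with he
  have he0 : e 0 = 0 := by
    rw [he]
    simp only [S_zero]
    rw [phi4_eq 1 one_ne_zero]
    simp
  have hen : ∀ n, 1 ≤ n → e n = h (padicValNat 2 n) / 2 := by
    intro n hn
    have h1 : padicValNat 2 (S 4 m n) = h (padicValNat 2 n) := hval n hn
    rw [he]
    simp only
    rw [phi4_eq _ (by have := S_pos 4 m n hm; omega), h1]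
  have hrange : ∀ k, ∃ r, r ≤ 4 ∧ h k = h r := by
    intro k
    induction k using Nat.strong_induction_on with
    | _ k ih =>
      by_cases hk : k ≤ 4
      · exact ⟨k, hk, rfl⟩
      · obtain ⟨r, hr, h1⟩ := ih (k - 4) (by omega)
        refine ⟨r, hr, ?_⟩
        rw [← h1, ← hper (k - 4) (by omega)]
        congr 1; omega
  have hzero : ∀ i, 1 ≤ i → (fun n => e (4 ^ i * n)) = (fun n => e (4 ^ 1 * n)) ∨
      (fun n => e (4 ^ i * n)) = (fun n => e (4 ^ 2 * n)) := by
    have hstep : ∀ i, 1 ≤ i → (fun n => e (4 ^ (i + 2) * n)) = (fun n => e (4 ^ i * n)) := by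
      intro i hi
      funext n
      rcases Nat.eq_zero_or_pos n with rfl | hn
      · simp
      · have hv : ∀ i, padicValNat 2 (4 ^ i * n) = 2 * i + padicValNat 2 n := by
          intro i
          rw [padicValNat.mul (by positivity) (by omega), show (4 : ℕ) ^ i = 2 ^ (2 * i) by
            rw [pow_mul]; norm_num, padicValNat.prime_pow]
        rw [hen _ (Nat.mul_pos (by positivity) hn), hen _ (Nat.mul_pos (by positivity) hn), hv, hv,
          ← hper (2 * i + padicValNat 2 n) (by omega)]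
        congr 2; omega
    intro i
    induction i using Nat.strong_induction_on with
    | _ i ih =>
      intro hi
      by_cases h2 : i ≤ 2
      · have : i = 1 ∨ i = 2 := by omega
        rcases this with rfl | rfl
        · exact Or.inl rfl
        · exact Or.inr rfl
      · have h3 := hstep (i - 2) (by omega)
        rw [Nat.sub_add_cancel (by omega)] at h3
        rw [h3]
        exact ih (i - 2) (by omega) (by omega)
  apply Set.Finite.subset (s := ({e, (fun n => e (4 ^ 1 * n)), (fun n => e (4 ^ 2 * n))} :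
    Set (ℕ → ℕ)) ∪ (fun r : ℕ => (fun _ : ℕ => h r / 2)) '' (Set.Iic 4))
  · exact Set.Finite.union (Set.toFinite _) (Set.Finite.image _ (Set.finite_Iic 4))
  · rintro s ⟨i, j, hj, rfl⟩
    rcases Nat.eq_zero_or_pos j with rfl | hj0
    · left
      rcases Nat.eq_zero_or_pos i with rfl | hi
      · left
        funext n
        simp
      · right
        simp only [add_zero]
        rcases hzero i hi with h1 | h1
        · left; exact h1
        · right; exact h1
    · right
      obtain ⟨r, hr, h1⟩ := hrange (padicValNat 2 j)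
      refine ⟨r, hr, ?_⟩
      funext n
      rw [hen _ (by omega), val_add i n j (by omega) hj, h1]

end Pool.Agent.Results.MP_b3d406_nt.Full
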